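import Mathlib
import Pool.Agent.Y319.KE.Cnt

/-!
# KG-T1F: counting lattices by the first vector, with a group of translations
-/

set_option autoImplicit false

open Finset

namespace Pool.Agent.Y146.KG

open Pool.Agent.Y319.KE (Nw box dyad abs_le_Nw one_le_Nw)

section

variable {ι : Type} [Fintype ι]

theorem Nw_add_le {Y : ι → ℝ} (z w : ι → ℤ) : Nw Y (w + z) ≤ Nw Y w + Nw Y z := by
  unfold Nw
  have e : (fun i => ((w + z) i : ℝ) / Y i) =
      (fun i => (w i : ℝ) / Y i) + (fun i => (z i : ℝ) / Y i) := by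
    funext i
    simp only [Pi.add_apply]
    push_cast
    ring
  rw [e]
  exact norm_add_le _ _

theorem alg_aux (q d : ℕ) {m c₀ R N P : ℝ} (hc : 0 < c₀) (hN : 0 < N) :
    (m * c₀⁻¹ * 5 ^ (q + 2 * d) * (R * N) ^ (q + d) * P) * (N ^ q)⁻¹ * (c₀ * (R / N) ^ d) =
      m * ((5 * R) ^ (q + 2 * d) * P) := by
  rw [mul_pow R, mul_pow 5 R, div_pow, pow_add N q d,
    show q + 2 * d = (q + d) + d by ring, pow_add R (q + d) d]
  field_simp

theorem count2 {q d : ℕ} (hq : Fintype.card ι = q + 2 * d) (Y : ι → ℝ) (hY : ∀ i, 0 < Y i)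
    {T Rt : Type} (act : Rt → (ι → ℤ) → (ι → ℤ)) {c₀ B X K : ℝ} {m₁ : ℕ} (hc₀ : 0 < c₀)
    (hR : ∀ ρ : ℝ, 1 ≤ ρ → ∃ A : Finset Rt, c₀ * ρ ^ d ≤ (A.card : ℝ) ∧
      ∀ r ∈ A, ∀ z, Nw Y (act r z) ≤ ρ * Nw Y z)
    (hinj : ∀ z, z ≠ 0 → Function.Injective fun r => act r z)
    (H : (ι → ℤ) → (ι → ℤ) → T → Prop) (hH : ∀ z w M r, H z w M → H z (w + act r z) M)
    (hHf : ∀ z w, {M | H z w M}.Finite ∧ {M | H z w M}.ncard ≤ m₁)
    (hB : 0 < B) (hX : 0 < X) (hK : 0 ≤ K) (𝒵 : Set (ι → ℤ)) {p : ℕ} (hp : q < p)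
    (h𝒵 : ∀ A : ℝ, 0 < A → {z | z ∈ 𝒵 ∧ Nw Y z ≤ A}.Finite ∧
      ({z | z ∈ 𝒵 ∧ Nw Y z ≤ A}.ncard : ℝ) ≤ K * A ^ p)
    (S : Set T) (hS : ∀ M ∈ S, ∃ z w, H z w M ∧ z ∈ 𝒵 ∧ 0 < Nw Y z ∧ Nw Y z * Nw Y w ≤ B ∧
      Nw Y z ^ 2 ≤ B ∧ Nw Y z ≤ X ∧ ∀ i, Nw Y z ≤ B * Y i) :
    S.Finite ∧ (S.ncard : ℝ) ≤
      (m₁ * c₀⁻¹ * 5 ^ (q + 2 * d) * B ^ (q + d) * ∏ i, Y i) * (2 ^ (q + 1) * K * X ^ (p - q)) := by
  classical
  have hwbox : ∀ R : ℝ, 0 ≤ R → {w : ι → ℤ | ∀ i, |(w i : ℝ)| ≤ R * Y i}.Finite := fun R hR =>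
    (box (fun i => R * Y i) fun i => mul_nonneg hR (hY i).le).1
  have hfin : S.Finite := by
    refine ((h𝒵 X hX).1.biUnion (t := fun z => ⋃ w ∈ {w : ι → ℤ | ∀ i, |(w i : ℝ)| ≤
      (B / Nw Y z) * Y i}, {M | H z w M}) fun z hz => ((hwbox (B / Nw Y z)
        (div_nonneg hB.le (norm_nonneg _))).biUnion fun w _ => (hHf z w).1)).subset ?_
    intro M hM
    obtain ⟨z, w, h1, h2, h3, h4, h5, h6, h7⟩ := hS M hM
    refine Set.mem_iUnion₂.2 ⟨z, ⟨h2, h6⟩, Set.mem_iUnion₂.2 ⟨w, fun i => ?_, h1⟩⟩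
    refine (abs_le_Nw hY w i).trans ?_
    have h8 : Nw Y w ≤ B / Nw Y z := by rw [le_div_iff₀ h3]; linarith
    exact mul_le_mul_of_nonneg_right h8 (hY i).le
  refine ⟨hfin, ?_⟩
  have hch : ∀ M : T, ∃ z w, M ∈ S → (H z w M ∧ z ∈ 𝒵 ∧ 0 < Nw Y z ∧ Nw Y z * Nw Y w ≤ B ∧
      Nw Y z ^ 2 ≤ B ∧ Nw Y z ≤ X ∧ ∀ i, Nw Y z ≤ B * Y i) := by
    intro M
    by_cases hM : M ∈ S
    · obtain ⟨z, w, h⟩ := hS M hM
      exact ⟨z, w, fun _ => h⟩
    · exact ⟨0, 0, fun h => absurd h hM⟩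
  choose zf wf hzw using hch
  set F := hfin.toFinset with hF
  have hmem : ∀ M, M ∈ F ↔ M ∈ S := fun M => hfin.mem_toFinset
  rw [Set.ncard_eq_toFinset_card S hfin]
  set Z := F.image zf with hZ
  have hZm : ∀ z ∈ Z, z ∈ 𝒵 ∧ 0 < Nw Y z ∧ Nw Y z ^ 2 ≤ B ∧ Nw Y z ≤ X ∧
      ∀ i, Nw Y z ≤ B * Y i := by
    intro z hz
    obtain ⟨M, hM, rfl⟩ := mem_image.1 hz
    obtain ⟨-, h2, h3, -, h5, h6, h7⟩ := hzw M ((hmem M).1 hM)
    exact ⟨h2, h3, h5, h6, h7⟩
  have hcard : F.card = ∑ z ∈ Z, (F.filter fun M => zf M = z).card :=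
    card_eq_sum_card_fiberwise fun M hM => mem_image_of_mem zf hM
  have hPY : 0 < ∏ i, Y i := Finset.prod_pos fun i _ => hY i
  have hfib : ∀ z ∈ Z, ((F.filter fun M => zf M = z).card : ℝ) ≤
      (m₁ * c₀⁻¹ * 5 ^ (q + 2 * d) * B ^ (q + d) * ∏ i, Y i) * (Nw Y z ^ q)⁻¹ := by
    intro z hz
    obtain ⟨-, hz1, hz2, -, hz4⟩ := hZm z hz
    set R := B / Nw Y z with hR'
    have hRpos : 0 < R := by positivity
    have hRz : R * Nw Y z = B := by rw [hR']; field_simp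
    have hRY : ∀ i, 1 ≤ R * Y i := by
      intro i
      rw [hR', div_mul_eq_mul_div, le_div_iff₀ hz1, one_mul]
      exact hz4 i
    obtain ⟨g1, g2⟩ := box (fun i => 2 * R * Y i) fun i => by
      have := hY i
      positivity
    have hρ : 1 ≤ R / Nw Y z := by
      rw [hR', div_div, one_le_div (by positivity), ← sq]
      exact hz2
    obtain ⟨A, hA1, hA2⟩ := hR (R / Nw Y z) hρ
    have hz0 : z ≠ 0 := by
      rintro rfl
      have h0 : (fun i => (((0 : ι → ℤ) i : ℤ) : ℝ) / Y i) = 0 := by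
        funext i
        simp
      unfold Nw at hz1
      rw [h0, norm_zero] at hz1
      exact lt_irrefl _ hz1
    have hle : ((F.filter fun M => zf M = z) ×ˢ A).card ≤ m₁ * g1.toFinset.card := by
      refine (Finset.card_le_mul_card_image (f := fun q : T × Rt => wf q.1 + act q.2 z) _ m₁
        ?_).trans (Nat.mul_le_mul_left _ (card_le_card ?_))
      · intro w' _
        have hsub : ∀ x ∈ ((F.filter fun M => zf M = z) ×ˢ A).filter
            (fun q => wf q.1 + act q.2 z = w'), x.1 ∈ (hHf z w').1.toFinset := by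
          rintro ⟨M, r⟩ hx
          rw [Finset.mem_filter, Finset.mem_product, Finset.mem_filter] at hx
          obtain ⟨⟨⟨hM, hMz⟩, -⟩, hw⟩ := hx
          obtain ⟨hMH, -⟩ := hzw M ((hmem M).1 hM)
          rw [hMz] at hMH
          rw [Set.Finite.mem_toFinset]
          have := hH z (wf M) M r hMH
          simp only at hw
          rw [hw] at this
          exact this
        have hinj' : Set.InjOn (fun x : T × Rt => x.1) (((F.filter fun M => zf M = z) ×ˢ A).filter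
            (fun q => wf q.1 + act q.2 z = w')) := by
          rintro ⟨M, r⟩ hx ⟨M', r'⟩ hx' heq
          simp only at heq
          subst heq
          rw [Finset.mem_coe, Finset.mem_filter] at hx hx'
          have e1 := hx.2.trans hx'.2.symm
          simp only at e1
          have e2 : act r z = act r' z := add_left_cancel e1
          have e3 := hinj z hz0 e2
          rw [e3]
        have h1 := Finset.card_le_card_of_injOn (fun x : T × Rt => x.1) hsub hinj'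
        refine h1.trans ?_
        rw [← Set.ncard_eq_toFinset_card _ (hHf z w').1]
        exact (hHf z w').2
      · intro w' hw'
        rw [Finset.mem_image] at hw'
        obtain ⟨⟨M, r⟩, hx, rfl⟩ := hw'
        rw [Finset.mem_product, Finset.mem_filter] at hx
        obtain ⟨⟨hM, hMz⟩, hr⟩ := hx
        simp only at hM hMz hr ⊢
        obtain ⟨-, -, -, hw, -⟩ := hzw M ((hmem M).1 hM)
        rw [hMz] at hw
        rw [Set.Finite.mem_toFinset]
        intro i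
        refine (abs_le_Nw hY _ i).trans ?_
        refine mul_le_mul_of_nonneg_right ((Nw_add_le _ _).trans ?_) (hY i).le
        have hw' : Nw Y (wf M) ≤ R := by rw [hR', le_div_iff₀ hz1]; linarith
        have h5 := hA2 r hr z
        have h6 : R / Nw Y z * Nw Y z = R := by field_simp
        linarith
    rw [card_product, ← Set.ncard_eq_toFinset_card _ g1] at hle
    have hle' : ((F.filter fun M => zf M = z).card : ℝ) * (c₀ * (R / Nw Y z) ^ d) ≤
        m₁ * ((5 * R) ^ (q + 2 * d) * ∏ i, Y i) := by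
      calc ((F.filter fun M => zf M = z).card : ℝ) * (c₀ * (R / Nw Y z) ^ d) ≤
          ((F.filter fun M => zf M = z).card : ℝ) * (A.card : ℝ) := by gcongr
        _ ≤ (m₁ : ℝ) * ({z : ι → ℤ | ∀ i, |(z i : ℝ)| ≤ 2 * R * Y i}.ncard : ℝ) := by
          exact_mod_cast hle
        _ ≤ m₁ * ∏ i, (2 * (2 * R * Y i) + 1) := by gcongr
        _ ≤ m₁ * ∏ i, (5 * R * Y i) := by
          refine mul_le_mul_of_nonneg_left ?_ (Nat.cast_nonneg _)
          refine Finset.prod_le_prod (fun i _ => ?_) fun i _ => ?_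
          · have := hY i
            positivity
          · have := hRY i
            nlinarith
        _ = m₁ * ((5 * R) ^ (q + 2 * d) * ∏ i, Y i) := by
          rw [Finset.prod_mul_distrib, Finset.prod_const, Finset.card_univ, hq]
    have h5 : 0 < c₀ * (R / Nw Y z) ^ d := by positivity
    have h4 : (m₁ * c₀⁻¹ * 5 ^ (q + 2 * d) * B ^ (q + d) * ∏ i, Y i) * (Nw Y z ^ q)⁻¹ *
        (c₀ * (R / Nw Y z) ^ d) = m₁ * ((5 * R) ^ (q + 2 * d) * ∏ i, Y i) := by
      have h6 := alg_aux q d (m := (m₁ : ℝ)) (R := R) (P := ∏ i, Y i) hc₀ hz1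
      rw [hRz] at h6
      exact h6
    rw [← h4] at hle'
    exact le_of_mul_le_mul_right hle' h5
  rw [hcard]
  push_cast
  refine (sum_le_sum hfib).trans ?_
  rw [← mul_sum]
  refine mul_le_mul_of_nonneg_left ?_ (by positivity)
  refine dyad Z (Nw Y) hK hp hX (fun z hz => ⟨(hZm z hz).2.1, (hZm z hz).2.2.2.1⟩) fun A hA => ?_
  obtain ⟨g1, g2⟩ := h𝒵 A hA
  refine le_trans ?_ g2
  rw [Set.ncard_eq_toFinset_card _ g1]
  have : (Z.filter fun z => Nw Y z ≤ A) ⊆ g1.toFinset := by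
    intro z hz
    rw [Finset.mem_filter] at hz
    rw [Set.Finite.mem_toFinset]
    exact ⟨(hZm z hz.1).1, hz.2⟩
  exact_mod_cast Finset.card_le_card this

end

section sigma

variable {s : Type} [Fintype s] [DecidableEq s] (d : s → ℕ) (Y : s → ℝ)

theorem zB2 (hY : ∀ i, 0 < Y i) (j : s) {m : ℕ}
    (hm : Fintype.card (Σ i, Fin (d i)) = m + d j) (A : ℝ) (hA : 0 < A) :
    {z : (Σ i, Fin (d i)) → ℤ | z ∈ {z : (Σ i, Fin (d i)) → ℤ | (∀ k, z ⟨j, k⟩ = 0) ∧
      ∀ i, i ≠ j → ∃ k, z ⟨i, k⟩ ≠ 0} ∧ Nw (fun x => Y x.1) z ≤ A}.Finite ∧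
    ({z : (Σ i, Fin (d i)) → ℤ | z ∈ {z : (Σ i, Fin (d i)) → ℤ | (∀ k, z ⟨j, k⟩ = 0) ∧
      ∀ i, i ≠ j → ∃ k, z ⟨i, k⟩ ≠ 0} ∧ Nw (fun x => Y x.1) z ≤ A}.ncard : ℝ) ≤
      (3 ^ m * (∏ x : (Σ i, Fin (d i)), Y x.1) / Y j ^ d j) * A ^ m := by
  have hY' : ∀ x : (Σ i, Fin (d i)), 0 < Y x.1 := fun x => hY x.1
  obtain ⟨g1, g2⟩ := box (fun x : (Σ i, Fin (d i)) => if x.1 = j then 0 else A * Y x.1) fun x => by
    have := hY' x
    split_ifs
    · exact le_rfl
    · positivity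
  have hsub : {z : (Σ i, Fin (d i)) → ℤ | z ∈ {z : (Σ i, Fin (d i)) → ℤ | (∀ k, z ⟨j, k⟩ = 0) ∧
      ∀ i, i ≠ j → ∃ k, z ⟨i, k⟩ ≠ 0} ∧ Nw (fun x => Y x.1) z ≤ A} ⊆
      {z : (Σ i, Fin (d i)) → ℤ | ∀ x, |(z x : ℝ)| ≤ if x.1 = j then 0 else A * Y x.1} := by
    rintro z ⟨⟨h1, -⟩, h2⟩ ⟨i, k⟩
    by_cases hij : i = j
    · subst hij
      simp [h1 k]
    · simp only [if_neg hij]
      exact (abs_le_Nw hY' z ⟨i, k⟩).trans (mul_le_mul_of_nonneg_right h2 (hY i).le)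
  refine ⟨g1.subset hsub, ?_⟩
  by_cases hall : ∀ i, i ≠ j → 1 ≤ A * Y i
  · refine le_trans (b := ({z : (Σ i, Fin (d i)) → ℤ | ∀ x, |(z x : ℝ)| ≤
      if x.1 = j then 0 else A * Y x.1}.ncard : ℝ))
      (by exact_mod_cast Set.ncard_le_ncard hsub g1) (g2.trans ?_)
    have h3 : ∏ x : (Σ i, Fin (d i)), (2 * (if x.1 = j then 0 else A * Y x.1) + 1) ≤
        ∏ x : (Σ i, Fin (d i)), (if x.1 = j then 1 else 3 * A * Y x.1) := by
      refine Finset.prod_le_prod (fun x _ => ?_) fun x _ => ?_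
      · have := hY' x
        split_ifs <;> positivity
      · split_ifs with hx
        · norm_num
        · have := hall x.1 hx
          linarith
    refine h3.trans ?_
    have h4 : (∏ x : (Σ i, Fin (d i)), (if x.1 = j then 1 else 3 * A * Y x.1)) *
        (3 * A * Y j) ^ d j = (3 * A) ^ (m + d j) * ∏ x : (Σ i, Fin (d i)), Y x.1 := by
      have h5 : ∏ x : (Σ i, Fin (d i)), (if x.1 = j then 3 * A * Y x.1 else 1) =
          (3 * A * Y j) ^ d j := by
        rw [Fintype.prod_sigma]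
        have : ∀ i, ∏ k : Fin (d i), (if (⟨i, k⟩ : Σ i, Fin (d i)).1 = j then
            3 * A * Y (⟨i, k⟩ : Σ i, Fin (d i)).1 else 1) =
              if i = j then (3 * A * Y j) ^ d j else 1 := by
          intro i
          by_cases hij : i = j
          · subst hij
            simp
          · simp [hij]
        simp_rw [this]
        rw [Finset.prod_ite_eq' univ j, if_pos (mem_univ j)]
      rw [← h5, ← Finset.prod_mul_distrib]
      have : ∀ x : (Σ i, Fin (d i)), (if x.1 = j then (1 : ℝ) else 3 * A * Y x.1) *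
          (if x.1 = j then 3 * A * Y x.1 else 1) = 3 * A * Y x.1 := by
        intro x
        split_ifs <;> ring
      simp_rw [this]
      rw [Finset.prod_mul_distrib, Finset.prod_const, Finset.card_univ, hm]
    have h6 : 0 < (3 * A * Y j) ^ d j := by
      have := hY j
      positivity
    refine le_of_mul_le_mul_right (le_of_eq ?_) h6
    rw [h4]
    have := hY j
    rw [mul_pow (3 * A) (Y j), pow_add (3 * A) m (d j), mul_pow 3 A m]
    field_simp
  · push Not at hall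
    obtain ⟨i, hij, hi⟩ := hall
    have : {z : (Σ i, Fin (d i)) → ℤ | z ∈ {z : (Σ i, Fin (d i)) → ℤ | (∀ k, z ⟨j, k⟩ = 0) ∧
        ∀ i, i ≠ j → ∃ k, z ⟨i, k⟩ ≠ 0} ∧ Nw (fun x => Y x.1) z ≤ A} = ∅ := by
      rw [Set.eq_empty_iff_forall_notMem]
      rintro z ⟨⟨-, h1⟩, h2⟩
      obtain ⟨k, hk⟩ := h1 i hij
      have h3 := one_le_Nw hY hk
      have h4 := mul_le_mul_of_nonneg_right h2 (hY i).le
      linarith
    rw [this, Set.ncard_empty]
    have h5 : 0 < ∏ x : (Σ i, Fin (d i)), Y x.1 := Finset.prod_pos fun x _ => hY' x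
    have := hY j
    push_cast
    positivity

end sigma

end Pool.Agent.Y146.KG
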