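import Pool.Agent.Y714.KG.Stm
import Pool.Agent.Y714.KE.Bas
import Pool.Agent.Y319.KE.T1

/-!
# KG-T1F: coordinates, action of the integers of `F`, lattices between `L` and `L / m`
-/

set_option autoImplicit false
set_option linter.unusedSectionVars false
set_option linter.unusedVariables false

namespace Pool.Agent.Y146.KG

open Pool.Agent.Y714.KE
open Pool.Agent.Y714.KG
open Pool.Agent.Y714.KF (FI sp ct nm pm ext br ubas qf bk el sg bf)
open Pool.Agent.Y319.KE (Nw box dyad abs_le_Nw one_le_Nw)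
open NumberField FractionalIdeal Module Finset ComplexConjugate
open scoped nonZeroDivisors

section

variable {s : Type} [Fintype s] [DecidableEq s] {K : s → Type} [∀ i, Field (K i)]
  [∀ i, NumberField (K i)]

/-- element with given coordinates -/
noncomputable def E (b : Bs K) (z : Ix K → ℤ) : Al K := fun i => el (b i) fun k => z ⟨i, k⟩

theorem E_add (b : Bs K) (z w : Ix K → ℤ) : E b (z + w) = E b z + E b w := by
  funext i
  exact Pool.Agent.Y714.KF.el_add (b i) (fun k => z ⟨i, k⟩) (fun k => w ⟨i, k⟩)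

theorem E_inj (b : Bs K) : Function.Injective (E b) := by
  intro z w h
  funext ⟨i, k⟩
  exact congrFun (Pool.Agent.Y714.KF.el_injective (b i) (congrFun h i)) k

theorem E_zero_comp (b : Bs K) (z : Ix K → ℤ) (i : s) : E b z i = 0 ↔ ∀ k, z ⟨i, k⟩ = 0 := by
  have h0 : el (b i) (fun _ => (0 : ℤ)) = 0 := by
    unfold Pool.Agent.Y714.KF.el
    exact Finset.sum_eq_zero fun k _ => by simp
  constructor
  · intro h k
    have h1 : el (b i) (fun k => z ⟨i, k⟩) = el (b i) (fun _ => (0 : ℤ)) := by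
      rw [h0]; exact h
    exact congrFun (Pool.Agent.Y714.KF.el_injective (b i) h1) k
  · intro h
    have h1 : (fun k => z ⟨i, k⟩) = fun _ => (0 : ℤ) := funext h
    change el (b i) (fun k => z ⟨i, k⟩) = 0
    rw [h1, h0]

theorem E_mem {I : FU K} {b : Bs K} (hb : IsB I b) (x : Al K) :
    (∀ i, x i ∈ (I i : FI (K i))) ↔ ∃ z, x = E b z := by
  constructor
  · intro h
    choose z hz using fun i => (hb i (x i)).1 (h i)
    exact ⟨fun k => z k.1 k.2, by funext i; exact hz i⟩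
  · rintro ⟨z, rfl⟩ i
    exact (hb i _).2 ⟨_, rfl⟩

theorem E_bound (b : Bs K) : ∃ c C : ℝ, 0 < c ∧ 0 < C ∧ ∀ (y : s → ℝ) (z : Ix K → ℤ),
    c * Nw (fun x : Ix K => Real.exp (y x.1)) z ^ 2 ≤ QY y (E b z) ∧
      QY y (E b z) ≤ C * Nw (fun x : Ix K => Real.exp (y x.1)) z ^ 2 := by
  obtain ⟨c, C, hc, hC, h⟩ := exists_bfA_bound b
  refine ⟨c, C, hc, hC, fun y z => ?_⟩
  have h1 := QY_pr1 b y (Sum.elim z 0)
  have h2 : (pr b (Sum.elim z 0)).1 = E b z := rfl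
  rw [h2] at h1
  rw [h1]
  exact h (lf (scl y (Sum.elim z 0)))

end

section

variable {F : Type} [Field F] [NumberField F] {s : Type} [Fintype s] [DecidableEq s]
  {K : s → Type} [∀ i, Field (K i)] [∀ i, NumberField (K i)] [∀ i, Algebra F (K i)]

theorem fa_apply (r : F) (i : s) : fa F K r i = algebraMap F (K i) r := rfl

theorem emb_fa (r : F) (x : Al K) (e : Em K) :
    e.2 ((fa F K r * x) e.1) = (rs F e) r * e.2 (x e.1) := by
  rw [Pi.mul_apply, map_mul, fa_apply]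
  rfl

theorem QY_fa (y : s → ℝ) (r : F) (x : Al K) {ρ : ℝ} (hρ : 0 ≤ ρ)
    (h : ∀ w : F →+* ℂ, ‖w r‖ ≤ ρ) : QY y (fa F K r * x) ≤ ρ ^ 2 * QY y x := by
  rw [QY_eq, QY_eq, mul_sum]
  refine sum_le_sum fun e _ => ?_
  rw [emb_fa, norm_mul, mul_pow]
  have h2 : ‖rs F e r‖ ^ 2 ≤ ρ ^ 2 := pow_le_pow_left₀ (norm_nonneg _) (h (rs F e)) 2
  calc Real.exp (-(2 * y e.1)) * (‖rs F e r‖ ^ 2 * ‖e.2 (x e.1)‖ ^ 2) ≤
      Real.exp (-(2 * y e.1)) * (ρ ^ 2 * ‖e.2 (x e.1)‖ ^ 2) := by gcongr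
    _ = ρ ^ 2 * (Real.exp (-(2 * y e.1)) * ‖e.2 (x e.1)‖ ^ 2) := by ring

theorem int_map (i : s) (r : 𝓞 F) : IsIntegral ℤ (algebraMap F (K i) (r : F)) :=
  (RingOfIntegers.isIntegral_coe r).algebraMap

theorem act_exists {I : FU K} {b : Bs K} (hb : IsB I b) (r : 𝓞 F) (z : Ix K → ℤ) :
    ∃ z', E b z' = fa F K (r : F) * E b z := by
  have h1 := (E_mem hb (E b z)).2 ⟨z, rfl⟩
  obtain ⟨z', hz'⟩ := (E_mem hb (fa F K (r : F) * E b z)).1 (fun i => by
    have h3 := ((I i : FI (K i)) : Submodule (𝓞 (K i)) (K i)).smul_mem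
      (⟨_, int_map i r⟩ : 𝓞 (K i)) (h1 i)
    exact h3)
  exact ⟨z', hz'.symm⟩

variable (F) in
theorem exists_small : ∃ C : ℝ, 0 < C ∧ ∀ ρ : ℝ, 0 ≤ ρ → ∃ A : Finset (𝓞 F),
    (ρ / C) ^ finrank ℚ F ≤ (A.card : ℝ) ∧ ∀ r ∈ A, ∀ w : F →+* ℂ, ‖w (r : F)‖ ≤ ρ := by
  classical
  let bb := RingOfIntegers.basis F
  obtain ⟨C1, hC1⟩ : ∃ C1 : ℝ, C1 = 1 + ∑ w : F →+* ℂ,
      ∑ j : Free.ChooseBasisIndex ℤ (𝓞 F), ‖w (bb j : F)‖ := ⟨_, rfl⟩
  have hC1pos : 0 < C1 := by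
    rw [hC1]
    have : 0 ≤ ∑ w : F →+* ℂ, ∑ j : Free.ChooseBasisIndex ℤ (𝓞 F), ‖w (bb j : F)‖ :=
      Finset.sum_nonneg fun w _ => Finset.sum_nonneg fun j _ => norm_nonneg _
    linarith
  refine ⟨C1, hC1pos, fun ρ hρ => ?_⟩
  obtain ⟨n, hn⟩ : ∃ n, n = ⌊ρ / C1⌋₊ := ⟨_, rfl⟩
  let f : (Free.ChooseBasisIndex ℤ (𝓞 F) → Fin (n + 1)) → 𝓞 F :=
    fun a => ∑ j, ((a j : ℕ) : ℤ) • bb j
  have hf : Function.Injective f := by
    intro a a' h
    have h1 : bb.equivFun.symm (fun j => ((a j : ℕ) : ℤ)) =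
        bb.equivFun.symm (fun j => ((a' j : ℕ) : ℤ)) := by
      rw [Basis.equivFun_symm_apply, Basis.equivFun_symm_apply]
      exact h
    have h2 := bb.equivFun.symm.injective h1
    funext j
    have h3 := congrFun h2 j
    exact Fin.ext (by exact_mod_cast h3)
  refine ⟨Finset.univ.image f, ?_, ?_⟩
  · have hJ : Fintype.card (Free.ChooseBasisIndex ℤ (𝓞 F)) = finrank ℚ F := by
      rw [← RingOfIntegers.rank F]
      exact (finrank_eq_card_chooseBasisIndex ℤ (𝓞 F)).symm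
    rw [card_image_of_injective _ hf, card_univ, Fintype.card_fun, Fintype.card_fin, hJ]
    push_cast
    have h5 : ρ / C1 ≤ (n : ℝ) + 1 := by rw [hn]; exact (Nat.lt_floor_add_one _).le
    have h6 : 0 ≤ ρ / C1 := by positivity
    gcongr
  · intro r hr w
    obtain ⟨a, -, rfl⟩ := mem_image.1 hr
    have h1 : w ((f a : 𝓞 F) : F) = ∑ j, ((a j : ℕ) : ℂ) * w (bb j : F) := by
      change w (algebraMap (𝓞 F) F (∑ j, ((a j : ℕ) : ℤ) • bb j)) = _
      rw [map_sum, map_sum]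
      refine Finset.sum_congr rfl fun j _ => ?_
      rw [zsmul_eq_mul, map_mul, map_mul]
      simp
    rw [h1]
    have hnle : (n : ℝ) * C1 ≤ ρ := by
      rw [hn, ← le_div_iff₀ hC1pos]
      exact Nat.floor_le (by positivity)
    have h2 : ∑ j, ‖w (bb j : F)‖ ≤ C1 := by
      have := Finset.single_le_sum (f := fun w : F →+* ℂ => ∑ j, ‖w (bb j : F)‖)
        (fun w _ => Finset.sum_nonneg fun j _ => norm_nonneg _) (Finset.mem_univ w)
      rw [hC1]
      linarith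
    calc ‖∑ j, ((a j : ℕ) : ℂ) * w (bb j : F)‖ ≤ ∑ j, ‖((a j : ℕ) : ℂ) * w (bb j : F)‖ :=
          norm_sum_le _ _
      _ ≤ ∑ j, (n : ℝ) * ‖w (bb j : F)‖ := by
          refine Finset.sum_le_sum fun j _ => ?_
          rw [norm_mul, Complex.norm_natCast]
          have h7 : ((a j : ℕ) : ℝ) ≤ n := by
            have := (a j).2
            exact_mod_cast (show (a j : ℕ) ≤ n by omega)
          gcongr
      _ = (n : ℝ) * ∑ j, ‖w (bb j : F)‖ := by rw [mul_sum]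
      _ ≤ (n : ℝ) * C1 := by gcongr
      _ ≤ ρ := hnle

variable (F) in
/-- a set between the lattice of `E z`, `E w` and the same divided by `m` -/
def Hr (b : Bs K) (m : ℕ) (z w : Ix K → ℤ) (M : Set (Al K)) : Prop :=
  E b z ∈ M ∧ E b w ∈ M ∧
  (∀ x ∈ M, ∀ x' ∈ M, ∀ c c' : 𝓞 F, fa F K (c : F) * x + fa F K (c' : F) * x' ∈ M) ∧
  ∀ x ∈ M, ∃ c d : 𝓞 F, (m : Al K) * x = fa F K (c : F) * E b z + fa F K (d : F) * E b w

theorem Hr_add {b : Bs K} {m : ℕ} {z w z' : Ix K → ℤ} {r : 𝓞 F} {M : Set (Al K)}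
    (hz' : E b z' = fa F K (r : F) * E b z) (h : Hr F b m z w M) : Hr F b m z (w + z') M := by
  obtain ⟨h1, h2, h3, h4⟩ := h
  refine ⟨h1, ?_, h3, fun x hx => ?_⟩
  · have h5 := h3 _ h2 _ h1 1 r
    rw [E_add, hz']
    simpa using h5
  · obtain ⟨c, d, hcd⟩ := h4 x hx
    refine ⟨c - d * r, d, ?_⟩
    rw [hcd, E_add, hz']
    simp only [map_sub, map_mul]
    ring

theorem Hr_fin (b : Bs K) {m : ℕ} (hm : 0 < m) : ∃ m₁ : ℕ, ∀ z w : Ix K → ℤ,
    {M | Hr F b m z w M}.Finite ∧ {M | Hr F b m z w M}.ncard ≤ m₁ := by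
  classical
  have hne : Ideal.span {(m : 𝓞 F)} ≠ ⊥ := by
    rw [Ne, Ideal.span_singleton_eq_bot]
    exact_mod_cast hm.ne'
  have hfinQ : Finite (𝓞 F ⧸ Ideal.span {(m : 𝓞 F)}) := Ideal.finiteQuotientOfFreeOfNeBot _ hne
  refine ⟨Nat.card (Set ((𝓞 F ⧸ Ideal.span {(m : 𝓞 F)}) × (𝓞 F ⧸ Ideal.span {(m : 𝓞 F)}))),
    fun z w => ?_⟩
  let f : Set (Al K) → Set ((𝓞 F ⧸ Ideal.span {(m : 𝓞 F)}) × (𝓞 F ⧸ Ideal.span {(m : 𝓞 F)})) :=
    fun M => {p | ∃ c d : 𝓞 F, (Ideal.Quotient.mk _ c, Ideal.Quotient.mk _ d) = p ∧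
      ∃ x ∈ M, (m : Al K) * x = fa F K (c : F) * E b z + fa F K (d : F) * E b w}
  have key : ∀ M M' : Set (Al K), Hr F b m z w M → Hr F b m z w M' → f M = f M' → M ⊆ M' := by
    intro M M' hM hM' hf x hx
    obtain ⟨c, d, hcd⟩ := hM.2.2.2 x hx
    have h1 : (Ideal.Quotient.mk (Ideal.span {(m : 𝓞 F)}) c,
        Ideal.Quotient.mk (Ideal.span {(m : 𝓞 F)}) d) ∈ f M := ⟨c, d, rfl, x, hx, hcd⟩
    rw [hf] at h1
    obtain ⟨c', d', heq, x', hx', hcd'⟩ := h1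
    rw [Prod.mk.injEq] at heq
    obtain ⟨e1, e2⟩ := heq
    rw [Ideal.Quotient.eq, Ideal.mem_span_singleton] at e1 e2
    obtain ⟨u, hu⟩ := e1
    obtain ⟨v, hv⟩ := e2
    have hc : c = c' - m * u := by rw [← hu]; ring
    have hd : d = d' - m * v := by rw [← hv]; ring
    have h2 : x = x' - (fa F K (u : F) * E b z + fa F K (v : F) * E b w) := by
      have h3 : (m : Al K) * x = (m : Al K) *
          (x' - (fa F K (u : F) * E b z + fa F K (v : F) * E b w)) := by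
        rw [hcd, mul_sub, hcd', hc, hd]
        simp only [map_sub, map_mul, map_natCast]
        ring
      funext i
      have h4 := congrFun h3 i
      rw [Pi.mul_apply, Pi.mul_apply, Pi.natCast_apply] at h4
      exact mul_left_cancel₀ (by exact_mod_cast hm.ne') h4
    have h5 := hM'.2.2.1 _ hM'.1 _ hM'.2.1 u v
    have h6 := hM'.2.2.1 _ hx' _ h5 1 (-1)
    rw [h2]
    simp only [map_one, one_mul, map_neg, neg_mul] at h6
    rw [sub_eq_add_neg]
    exact h6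
  have hinj : Set.InjOn f {M | Hr F b m z w M} := by
    intro M hM M' hM' h
    exact Set.Subset.antisymm (key M M' hM hM' h) (key M' M hM' hM h.symm)
  refine ⟨Set.Finite.of_injOn (t := Set.univ) (fun _ _ => Set.mem_univ _) hinj Set.finite_univ, ?_⟩
  rw [← Set.ncard_univ]
  exact Set.ncard_le_ncard_of_injOn f (fun _ _ => Set.mem_univ _) hinj Set.finite_univ

end

end Pool.Agent.Y146.KG
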