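import Pool.Agent.Y146.KG.Lat

/-!
# KG-T1F: the structure of the lattices of a cell
-/

set_option autoImplicit false
set_option linter.unusedSectionVars false
set_option linter.unusedVariables false

namespace Pool.Agent.Y146.KG

open Pool.Agent.Y714.KE
open Pool.Agent.Y714.KG
open Pool.Agent.Y714.KF (FI sp ct nm pm ext br ubas qf bk el sg bf)
open Pool.Agent.Y319.KE (Nw box dyad abs_le_Nw one_le_Nw)
open NumberField FractionalIdeal Module Finset ComplexConjugate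
open scoped nonZeroDivisors

section

variable {F : Type} [Field F] [NumberField F] {s : Type} [Fintype s] [DecidableEq s]
  {K : s → Type} [∀ i, Field (K i)] [∀ i, NumberField (K i)] [∀ i, Algebra F (K i)]

theorem dg_eq (h4 : S_CRD F K) : dg K = finrank ℚ F * dF F K := by
  unfold dg dF
  rw [mul_sum]
  exact sum_congr rfl fun i _ => h4.2.2 i

theorem pmw_pos (h4 : S_CRD F K) (hn : 2 ≤ dF F K) {P : Al K × Al K} (hP : NDF F P)
    (w : F →+* ℂ) : 0 < pm (rv F w (vc P)) := by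
  refine Pool.Agent.Y714.KF.pm_pos (by rw [h4.2.1 w]; exact hn) ?_
  intro e f hef
  exact hP e.1 f.1 (fun h => hef (Subtype.ext h)) (e.2.trans f.2.symm)

theorem uF_le (h3 : S_SUF F K) (h4 : S_CRD F K) (hn : 3 ≤ dF F K) {P : Al K × Al K}
    (hP : NDF F P) {i₀ : s} {y : s → ℝ}
    (h1 : ∀ i, i ≠ i₀ → y i ≤ uF F (vc P) i ∧ uF F (vc P) i < y i + 1)
    (h2 : pF F (vc P) ≤ tt (K := K) y) (i : s) : uF F (vc P) i ≤ y i + 1 := by
  by_cases hi : i = i₀
  · subst hi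
    have hpm : 0 < pF F (vc P) := Finset.prod_pos fun w _ => pmw_pos h4 (by omega) hP w
    have hF : 0 < finrank ℚ F := finrank_pos
    have hdg : 0 < dg K := by
      rw [dg_eq (F := F) h4]
      exact Nat.mul_pos hF (by omega)
    have h3 := h3 hdg (vc P)
    have h4' : Real.log (pF F (vc P)) ≤ 2 * ∑ j, (finrank ℚ (K j) : ℝ) * y j := by
      rw [← Real.log_exp (2 * ∑ j, (finrank ℚ (K j) : ℝ) * y j)]
      exact Real.log_le_log hpm h2
    have h5 : ∑ j, (finrank ℚ (K j) : ℝ) * uF F (vc P) j ≤ ∑ j, (finrank ℚ (K j) : ℝ) * y j := by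
      rw [h3]
      linarith
    rw [← add_sum_erase univ (fun j => (finrank ℚ (K j) : ℝ) * uF F (vc P) j) (mem_univ i),
      ← add_sum_erase univ (fun j => (finrank ℚ (K j) : ℝ) * y j) (mem_univ i)] at h5
    have h6 : ∑ j ∈ univ.erase i, (finrank ℚ (K j) : ℝ) * y j ≤
        ∑ j ∈ univ.erase i, (finrank ℚ (K j) : ℝ) * uF F (vc P) j := by
      refine sum_le_sum fun j hj => ?_
      exact mul_le_mul_of_nonneg_left (h1 j (ne_of_mem_erase hj)).1 (Nat.cast_nonneg _)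
    have h7 : (0 : ℝ) < finrank ℚ (K i) := by exact_mod_cast (finrank_pos : 0 < finrank ℚ (K i))
    have h8 : (finrank ℚ (K i) : ℝ) * uF F (vc P) i ≤ finrank ℚ (K i) * y i := by linarith
    have h9 := le_of_mul_le_mul_left h8 h7
    linarith
  · exact (h1 i hi).2.le

theorem br_det (P : Al K × Al K) (a b c d : F) (e f : Em K) (h : rs F e = rs F f) :
    br (vc (glF F a b c d P) e) (vc (glF F a b c d P) f) =
      (rs F e) (a * d - b * c) * br (vc P e) (vc P f) := by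
  have k1 : ∀ (u v : F) (g : Em K), g.2 ((fa F K u * P.1 + fa F K v * P.2) g.1) =
      (rs F g) u * g.2 (P.1 g.1) + (rs F g) v * g.2 (P.2 g.1) := by
    intro u v g
    rw [Pi.add_apply, map_add, emb_fa, emb_fa]
  unfold Pool.Agent.Y714.KF.br vc glF
  simp only [k1]
  rw [← h]
  simp only [map_sub, map_mul]
  ring

theorem LF_cl {P : Al K × Al K} {x x' : Al K} (hx : x ∈ LF F P) (hx' : x' ∈ LF F P)
    (c c' : 𝓞 F) : fa F K (c : F) * x + fa F K (c' : F) * x' ∈ LF F P := by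
  obtain ⟨a, b, rfl⟩ := hx
  obtain ⟨a', b', rfl⟩ := hx'
  refine ⟨c * a + c' * a', c * b + c' * b', ?_⟩
  simp only [map_add, map_mul]
  ring

theorem LF_I {P : Al K × Al K} {I : FU K} (h : ∀ i, cn P i ≤ (I i : FI (K i))) {x : Al K}
    (hx : x ∈ LF F P) (i : s) : x i ∈ (I i : FI (K i)) := by
  obtain ⟨a, b, rfl⟩ := hx
  obtain ⟨h1, h2⟩ := (cn_le (P := P) (I := cf I)).1 h
  have h3 := ((I i : FI (K i)) : Submodule (𝓞 (K i)) (K i)).smul_mem
    (⟨_, int_map i a⟩ : 𝓞 (K i)) (h1 i)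
  have h4 := ((I i : FI (K i)) : Submodule (𝓞 (K i)) (K i)).smul_mem
    (⟨_, int_map i b⟩ : 𝓞 (K i)) (h2 i)
  exact ((I i : FI (K i)) : Submodule (𝓞 (K i)) (K i)).add_mem h3 h4

theorem structF (h1 : S_RDF F K) (h2 : S_BRF F K) (h3 : S_SUF F K) (h4 : S_CRD F K)
    (hodd : Odd (dF F K)) (hn : 3 ≤ dF F K) (κ : Ux K → ℝ) (i₀ : s) (I : FU K) (b : Bs K)
    (hb : IsB I b) : ∃ (B : ℝ) (m : ℕ), 0 < B ∧ 0 < m ∧ ∀ (y : s → ℝ),
      ∀ M ∈ SYF F κ i₀ (cf I) y, ∃ z w : Ix K → ℤ, Hr F b m z w M ∧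
        0 < Nw (fun x : Ix K => Real.exp (y x.1)) z ∧
        Nw (fun x : Ix K => Real.exp (y x.1)) z * Nw (fun x : Ix K => Real.exp (y x.1)) w ≤ B ∧
        Nw (fun x : Ix K => Real.exp (y x.1)) z ^ 2 ≤ B ∧
        ((∀ i, ∃ k, z ⟨i, k⟩ ≠ 0) ∨ ∃ j, finrank F (K j) = 1 ∧ (∀ k, z ⟨j, k⟩ = 0) ∧
          (∃ k, w ⟨j, k⟩ ≠ 0) ∧ ∀ i, i ≠ j → ∃ k, z ⟨i, k⟩ ≠ 0) := by
  obtain ⟨c, C, hc, hC, hbd⟩ := E_bound b
  obtain ⟨C', hC', hbr⟩ := h2 hodd (∑ j, |κ j| + 1)
  obtain ⟨C2, hC2, hrd⟩ := h1 (by omega : 2 ≤ dF F K) I (C' * Real.exp 2)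
  refine ⟨√C2 / c + C2 / c + 1, (⌊C2⌋₊).factorial, by positivity, Nat.factorial_pos _,
    fun y M hM => ?_⟩
  obtain ⟨P, rfl, hcn, hND, hNZ, hui, hpF⟩ := hM
  have hpm := pmw_pos h4 (by omega) hND
  have hu : ∀ i, uF F (vc P) i ≤ y i + 1 := uF_le h3 h4 hn hND hui hpF
  have hbr' : ∀ e f : Em K, rs F e = rs F f →
      ‖br (vc P e) (vc P f)‖ ≤ C' * Real.exp 2 * Real.exp (y e.1 + y f.1) := by
    intro e f hef
    refine (hbr (vc P) (SYM_vc P) hpm (fun j => ?_) e f hef).trans ?_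
    · have h5 : |κ j| ≤ ∑ j, |κ j| := single_le_sum (f := fun j => |κ j|)
        (fun _ _ => abs_nonneg _) (mem_univ j)
      obtain ⟨h6, h7⟩ := hNZ j
      rw [abs_le]
      constructor
      · linarith [neg_abs_le (κ j)]
      · linarith [le_abs_self (κ j)]
    · rw [mul_assoc, ← Real.exp_add]
      refine mul_le_mul_of_nonneg_left (Real.exp_le_exp.2 ?_) hC'.le
      linarith [hu e.1, hu f.1]
  obtain ⟨α, hα, β, hβ, m, hm, hmC, hQ0, hQ1, hQ2, hind, hgen⟩ := hrd y P hcn hND hbr'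
  obtain ⟨z, hz⟩ := (E_mem hb α).1 (LF_I hcn hα)
  obtain ⟨w, hw⟩ := (E_mem hb β).1 (LF_I hcn hβ)
  obtain ⟨n1, n1'⟩ := hbd y z
  obtain ⟨n2, n2'⟩ := hbd y w
  rw [← hz] at n1 n1'
  rw [← hw] at n2 n2'
  have hzn : (0 : ℝ) ≤ Nw (fun x : Ix K => Real.exp (y x.1)) z := norm_nonneg _
  have hwn : (0 : ℝ) ≤ Nw (fun x : Ix K => Real.exp (y x.1)) w := norm_nonneg _
  have hsq : √C2 ^ 2 = C2 := Real.sq_sqrt hC2.le
  have hs0 : 0 ≤ √C2 := Real.sqrt_nonneg _
  have p1 : 0 ≤ √C2 / c := by positivity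
  have p2 : 0 ≤ C2 / c := by positivity
  refine ⟨z, w, ⟨?_, ?_, ?_, ?_⟩, ?_, ?_, ?_, ?_⟩
  · rw [← hz]; exact hα
  · rw [← hw]; exact hβ
  · intro x hx x' hx' c c'
    exact LF_cl hx hx' c c'
  · intro x hx
    obtain ⟨u, v, huv⟩ := hgen x hx
    have hle : m ≤ ⌊C2⌋₊ := Nat.le_floor hmC
    obtain ⟨k, hk⟩ := Nat.dvd_factorial hm hle
    refine ⟨k * u, k * v, ?_⟩
    rw [hk, ← hz, ← hw]
    push_cast
    rw [mul_comm (m : Al K), mul_assoc, huv]
    simp only [map_mul, map_natCast]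
    ring
  · rcases hzn.lt_or_eq with h | h
    · exact h
    · exfalso
      rw [← h] at n1'
      have : C * (0 : ℝ) ^ 2 = 0 := by ring
      linarith
  · have h5 : Nw (fun x : Ix K => Real.exp (y x.1)) z *
        Nw (fun x : Ix K => Real.exp (y x.1)) w ≤ √C2 / c := by
      rw [le_div_iff₀ hc]
      refine abs_le_of_sq_le_sq' ?_ hs0 |>.2
      rw [hsq]
      have q0 := QY_nonneg y α
      have q0' := QY_nonneg y β
      calc (Nw (fun x : Ix K => Real.exp (y x.1)) z * Nw (fun x : Ix K => Real.exp (y x.1)) w *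
            c) ^ 2 =
          (c * Nw (fun x : Ix K => Real.exp (y x.1)) z ^ 2) *
            (c * Nw (fun x : Ix K => Real.exp (y x.1)) w ^ 2) := by ring
        _ ≤ QY y α * QY y β := by gcongr
        _ ≤ C2 := hQ2
    linarith
  · have h5 : Nw (fun x : Ix K => Real.exp (y x.1)) z ^ 2 ≤ C2 / c := by
      rw [le_div_iff₀ hc]
      linarith
    linarith
  · by_cases hall : ∀ i, ∃ k, z ⟨i, k⟩ ≠ 0
    · exact Or.inl hall
    right
    push Not at hall
    obtain ⟨j, hj⟩ := hall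
    have hαj : α j = 0 := by rw [hz]; exact (E_zero_comp b z j).2 hj
    -- the determinant
    obtain ⟨a₁, b₁, hα'⟩ := hα
    obtain ⟨c₁, d₁, hβ'⟩ := hβ
    obtain ⟨D, hD⟩ : ∃ D : F, D = (a₁ : F) * d₁ - (b₁ : F) * c₁ := ⟨_, rfl⟩
    have hD0 : D ≠ 0 := by
      intro h0
      have e1 := hind (d₁ : F) (-(b₁ : F)) (by
        have : fa F K (d₁ : F) * α + fa F K (-(b₁ : F)) * β = fa F K D * P.1 := by
          rw [hα', hβ', hD]
          simp only [map_neg, map_sub, map_mul]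
          ring
        rw [this, h0, map_zero, zero_mul])
      have e2 := hind (-(c₁ : F)) (a₁ : F) (by
        have : fa F K (-(c₁ : F)) * α + fa F K (a₁ : F) * β = fa F K D * P.2 := by
          rw [hα', hβ', hD]
          simp only [map_neg, map_sub, map_mul]
          ring
        rw [this, h0, map_zero, zero_mul])
      have e3 : (a₁ : F) = 0 := e2.2
      have e4 : (b₁ : F) = 0 := neg_eq_zero.1 e1.2
      have e5 : α = 0 := by
        rw [hα', e3, e4]
        simp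
      have e6 := hind 1 0 (by rw [e5]; simp)
      exact one_ne_zero e6.1
    have hbk : ∀ e f : Em K, e ≠ f → rs F e = rs F f →
        br (vc (α, β) e) (vc (α, β) f) ≠ 0 := by
      intro e f hef hrs
      have e1 : (α, β) = glF F (a₁ : F) b₁ c₁ d₁ P := Prod.ext hα' hβ'
      rw [e1, br_det P _ _ _ _ e f hrs, ← hD]
      exact mul_ne_zero ((_root_.map_ne_zero _).2 hD0) (hND e f hef hrs)
    have hfin : ∀ i, 0 < finrank F (K i) := by
      intro i
      have e1 := h4.2.2 i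
      have e2 : 0 < finrank ℚ (K i) := finrank_pos
      rw [e1] at e2
      exact Nat.pos_of_mul_pos_left e2
    obtain ⟨σ⟩ : Nonempty (K j →+* ℂ) := inferInstance
    refine ⟨j, ?_, hj, ?_, ?_⟩
    · by_contra hne
      have e1 := h4.1 j (σ.comp (algebraMap F (K j)))
      have e2 := hfin j
      have e3 : 1 < Nat.card {τ : K j →+* ℂ // τ.comp (algebraMap F (K j)) =
          σ.comp (algebraMap F (K j))} := by rw [e1]; omega
      rw [Finite.one_lt_card_iff_nontrivial] at e3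
      obtain ⟨τ₁, τ₂, hτ⟩ := e3
      refine hbk ⟨j, τ₁.1⟩ ⟨j, τ₂.1⟩ (fun h => hτ (Subtype.ext (by simpa using h)))
        (τ₁.2.trans τ₂.2.symm) ?_
      unfold Pool.Agent.Y714.KF.br vc
      simp [hαj]
    · by_contra hcon
      push Not at hcon
      have hβj : β j = 0 := by rw [hw]; exact (E_zero_comp b w j).2 hcon
      have e1 : 1 < Fintype.card (Ef F K (rs F (⟨j, σ⟩ : Em K))) := by
        rw [h4.2.1]; omega
      obtain ⟨f, hf⟩ := Fintype.exists_ne_of_one_lt_card e1 ⟨⟨j, σ⟩, rfl⟩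
      refine hbk ⟨j, σ⟩ f.1 (fun h => hf (Subtype.ext h.symm)) f.2.symm ?_
      unfold Pool.Agent.Y714.KF.br vc
      simp [hαj, hβj]
    · intro i hij
      by_contra hcon
      push Not at hcon
      have hαi : α i = 0 := by rw [hz]; exact (E_zero_comp b z i).2 hcon
      have e1 := h4.1 i (σ.comp (algebraMap F (K j)))
      have e2 := hfin i
      have e3 : 0 < Nat.card {τ : K i →+* ℂ // τ.comp (algebraMap F (K i)) =
          σ.comp (algebraMap F (K j))} := by rw [e1]; exact e2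
      obtain ⟨⟨τ⟩, -⟩ := Nat.card_pos_iff.1 e3
      refine hbk ⟨i, τ.1⟩ ⟨j, σ⟩ (fun h => hij (congrArg Sigma.fst h)) τ.2 ?_
      unfold Pool.Agent.Y714.KF.br vc
      simp [hαj, hαi]

end

end Pool.Agent.Y146.KG
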