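import Pool.Agent.Y146.KG.Str
import Pool.Agent.Y146.KG.Cnt2

/-!
# KG-T1F: the number of lattices in a cell
-/

set_option autoImplicit false
set_option linter.unusedSectionVars false
set_option linter.unusedVariables false

namespace Pool.Agent.Y146.KG

open Pool.Agent.Y714.KE
open Pool.Agent.Y714.KG
open Pool.Agent.Y714.KF (FI sp ct nm pm ext br ubas qf bk el sg bf)
open Pool.Agent.Y319.KE (Nw box dyad abs_le_Nw one_le_Nw zA card_Ix prod_exp)
open NumberField FractionalIdeal Module Finset ComplexConjugate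
open scoped nonZeroDivisors

section

theorem biUnion_bound {s T : Type} [DecidableEq s] (SB : s → Set T) {c : ℝ} (G : Finset s)
    (h : ∀ j ∈ G, (SB j).Finite ∧ ((SB j).ncard : ℝ) ≤ c) :
    (⋃ j ∈ G, SB j).Finite ∧ ((⋃ j ∈ G, SB j).ncard : ℝ) ≤ G.card * c := by
  induction G using Finset.induction_on with
  | empty => simp
  | insert a G ha ih =>
    obtain ⟨i1, i2⟩ := ih fun j hj => h j (mem_insert_of_mem hj)
    obtain ⟨i3, i4⟩ := h a (mem_insert_self _ _)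
    rw [Finset.set_biUnion_insert, Finset.card_insert_of_notMem ha]
    refine ⟨i3.union i1, ?_⟩
    have h5 : ((SB a ∪ ⋃ j ∈ G, SB j).ncard : ℝ) ≤ ((SB a).ncard : ℝ) +
      ((⋃ j ∈ G, SB j).ncard : ℝ) := by exact_mod_cast Set.ncard_union_le (SB a) (⋃ j ∈ G, SB j)
    push_cast
    linarith

variable {F : Type} [Field F] [NumberField F] {s : Type} [Fintype s] [DecidableEq s]
  {K : s → Type} [∀ i, Field (K i)] [∀ i, NumberField (K i)] [∀ i, Algebra F (K i)]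

theorem act_bound {b : Bs K} {act : 𝓞 F → (Ix K → ℤ) → (Ix K → ℤ)}
    (hact : ∀ r z, E b (act r z) = fa F K (r : F) * E b z) :
    ∃ c₀ : ℝ, 0 < c₀ ∧ ∀ (y : s → ℝ) (ρ : ℝ), 1 ≤ ρ → ∃ A : Finset (𝓞 F),
      c₀ * ρ ^ finrank ℚ F ≤ (A.card : ℝ) ∧ ∀ r ∈ A, ∀ z,
        Nw (fun x : Ix K => Real.exp (y x.1)) (act r z) ≤
          ρ * Nw (fun x : Ix K => Real.exp (y x.1)) z := by
  obtain ⟨c, C, hc, hC, hbd⟩ := E_bound b
  obtain ⟨C1, hC1, hsm⟩ := exists_small F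
  obtain ⟨D, hD⟩ : ∃ D, D = √(C / c) := ⟨_, rfl⟩
  have hDpos : 0 < D := by rw [hD]; exact Real.sqrt_pos.2 (by positivity)
  have hD2 : D ^ 2 = C / c := by rw [hD]; exact Real.sq_sqrt (by positivity)
  refine ⟨((C1 * D)⁻¹) ^ finrank ℚ F, by positivity, fun y ρ hρ => ?_⟩
  have hρ0 : 0 ≤ ρ / D := by positivity
  obtain ⟨A, hA1, hA2⟩ := hsm (ρ / D) hρ0
  refine ⟨A, ?_, fun r hr z => ?_⟩
  · refine le_trans (le_of_eq ?_) hA1
    rw [← mul_pow]
    congr 1
    field_simp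
  · have e1 := (hbd y (act r z)).1
    rw [hact] at e1
    have e2 := QY_fa (K := K) y (r : F) (E b z) hρ0 (fun w => hA2 r hr w)
    have e3 := (hbd y z).2
    have hz0 : 0 ≤ Nw (fun x : Ix K => Real.exp (y x.1)) z := norm_nonneg _
    have e4 : c * Nw (fun x : Ix K => Real.exp (y x.1)) (act r z) ^ 2 ≤
        c * (ρ * Nw (fun x : Ix K => Real.exp (y x.1)) z) ^ 2 := by
      calc c * Nw (fun x : Ix K => Real.exp (y x.1)) (act r z) ^ 2 ≤
          (ρ / D) ^ 2 * QY y (E b z) := e1.trans e2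
        _ ≤ (ρ / D) ^ 2 * (C * Nw (fun x : Ix K => Real.exp (y x.1)) z ^ 2) := by gcongr
        _ = c * (ρ * Nw (fun x : Ix K => Real.exp (y x.1)) z) ^ 2 := by
          rw [div_pow, hD2]
          field_simp
    have e5 := le_of_mul_le_mul_left e4 hc
    exact abs_le_of_sq_le_sq' e5 (by positivity) |>.2

theorem act_inj {b : Bs K} {act : 𝓞 F → (Ix K → ℤ) → (Ix K → ℤ)}
    (hact : ∀ r z, E b (act r z) = fa F K (r : F) * E b z) (z : Ix K → ℤ) (hz : z ≠ 0) :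
    Function.Injective fun r => act r z := by
  intro r r' h
  have h1 : fa F K (r : F) * E b z = fa F K (r' : F) * E b z := by
    rw [← hact, ← hact]
    exact congrArg (E b) h
  have h2 : ∃ i, E b z i ≠ 0 := by
    by_contra hcon
    push Not at hcon
    apply hz
    funext ⟨i, k⟩
    exact (E_zero_comp b z i).1 (hcon i) k
  obtain ⟨i, hi⟩ := h2
  have h3 := congrFun h1 i
  rw [Pi.mul_apply, Pi.mul_apply] at h3
  have h4 := mul_right_cancel₀ hi h3
  rw [fa_apply, fa_apply] at h4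
  have h5 := (algebraMap F (K i)).injective h4
  exact RingOfIntegers.ext h5

/-- T1F -/
theorem t1f (h1 : S_RDF F K) (h2 : S_BRF F K) (h3 : S_SUF F K) (h4 : S_CRD F K) :
    S_T1F F K := by
  intro hodd hn κ i₀ I
  obtain ⟨b, hb⟩ := exists_bs I
  obtain ⟨B, m, hB, hm, hst⟩ := structF h1 h2 h3 h4 hodd hn κ i₀ I b hb
  obtain ⟨m₁, hm₁⟩ := Hr_fin (F := F) b hm
  choose act hact using fun (r : 𝓞 F) (z : Ix K → ℤ) => act_exists hb r z
  obtain ⟨c₀, hc₀, hR⟩ := act_bound hact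
  have hinj := act_inj hact
  obtain ⟨d, hd⟩ : ∃ d, d = finrank ℚ F := ⟨_, rfl⟩
  rw [← hd] at hR
  have hdpos : 0 < d := by rw [hd]; exact finrank_pos
  have hdg : dg K = d * dF F K := by rw [hd]; exact dg_eq h4
  obtain ⟨q, hq⟩ : ∃ q, dg K = q + 2 * d := ⟨dg K - 2 * d, by
    have : d * 3 ≤ d * dF F K := Nat.mul_le_mul_left _ hn
    rw [← hdg] at this
    omega⟩
  have hcard : Fintype.card (Ix K) = q + 2 * d := by rw [card_Ix, hq]
  obtain ⟨C₀, hC₀⟩ : ∃ C₀ : ℝ, C₀ = m₁ * c₀⁻¹ * 5 ^ (q + 2 * d) * B ^ (q + d) := ⟨_, rfl⟩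
  have hC₀n : 0 ≤ C₀ := by rw [hC₀]; positivity
  obtain ⟨CA, hCA⟩ : ∃ CA : ℝ, CA = C₀ * (2 ^ (q + 1) * 3 ^ (q + 2 * d) * √B ^ (2 * d)) :=
    ⟨_, rfl⟩
  obtain ⟨CB, hCB⟩ : ∃ CB : ℝ, CB = C₀ * (2 ^ (q + 1) * 3 ^ (q + d) * B ^ d) := ⟨_, rfl⟩
  have hCAn : 0 ≤ CA := by rw [hCA]; positivity
  have hCBn : 0 ≤ CB := by rw [hCB]; positivity
  refine ⟨CA + Fintype.card s * CB + 1, by positivity, fun y => ?_⟩
  have hY : ∀ i : s, 0 < Real.exp (y i) := fun i => Real.exp_pos _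
  have hYx : ∀ x : Ix K, 0 < Real.exp (y x.1) := fun x => Real.exp_pos _
  obtain ⟨PY, hPY⟩ : ∃ PY, PY = ∏ x : Ix K, Real.exp (y x.1) := ⟨_, rfl⟩
  have hPYpos : 0 < PY := by rw [hPY]; exact Finset.prod_pos fun x _ => hYx x
  have hPY2 : PY ^ 2 = tt (K := K) y := by rw [hPY]; exact prod_exp y
  have hsB : 0 < √B := Real.sqrt_pos.2 hB
  -- the bound of the first vector
  have hYB : ∀ {z w : Ix K → ℤ}, Nw (fun x : Ix K => Real.exp (y x.1)) z *
      Nw (fun x : Ix K => Real.exp (y x.1)) w ≤ B →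
      Nw (fun x : Ix K => Real.exp (y x.1)) z ^ 2 ≤ B →
      0 < Nw (fun x : Ix K => Real.exp (y x.1)) z → ∀ i,
      ((∃ k, z ⟨i, k⟩ ≠ 0) ∨ (∃ k, w ⟨i, k⟩ ≠ 0)) →
      Nw (fun x : Ix K => Real.exp (y x.1)) z ≤ B * Real.exp (y i) := by
    intro z w h1 h2 h3 i h4
    rcases h4 with ⟨k, hk⟩ | ⟨k, hk⟩
    · have h5 := one_le_Nw (d := fun i => finrank ℚ (K i)) (Y := fun i => Real.exp (y i)) hY hk
      calc Nw (fun x : Ix K => Real.exp (y x.1)) z ≤ Nw (fun x : Ix K => Real.exp (y x.1)) z *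
            (Nw (fun x : Ix K => Real.exp (y x.1)) z * Real.exp (y i)) :=
            le_mul_of_one_le_right h3.le h5
        _ = Nw (fun x : Ix K => Real.exp (y x.1)) z ^ 2 * Real.exp (y i) := by ring
        _ ≤ _ := by gcongr
    · have h5 := one_le_Nw (d := fun i => finrank ℚ (K i)) (Y := fun i => Real.exp (y i)) hY hk
      calc Nw (fun x : Ix K => Real.exp (y x.1)) z ≤ Nw (fun x : Ix K => Real.exp (y x.1)) z *
            (Nw (fun x : Ix K => Real.exp (y x.1)) w * Real.exp (y i)) :=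
            le_mul_of_one_le_right h3.le h5
        _ = (Nw (fun x : Ix K => Real.exp (y x.1)) z * Nw (fun x : Ix K => Real.exp (y x.1)) w) *
            Real.exp (y i) := by ring
        _ ≤ _ := by gcongr
  -- case A
  obtain ⟨SA', hSA'⟩ : ∃ SA' : Set (Set (Al K)), SA' = {M | ∃ z w : Ix K → ℤ, Hr F b m z w M ∧
      z ∈ {z : Ix K → ℤ | ∀ i, ∃ k, z ⟨i, k⟩ ≠ 0} ∧
      0 < Nw (fun x : Ix K => Real.exp (y x.1)) z ∧
      Nw (fun x : Ix K => Real.exp (y x.1)) z * Nw (fun x : Ix K => Real.exp (y x.1)) w ≤ B ∧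
      Nw (fun x : Ix K => Real.exp (y x.1)) z ^ 2 ≤ B ∧
      Nw (fun x : Ix K => Real.exp (y x.1)) z ≤ √B ∧
      ∀ x : Ix K, Nw (fun x : Ix K => Real.exp (y x.1)) z ≤ B * Real.exp (y x.1)} := ⟨_, rfl⟩
  have cA := count2 (q := q) (d := d) hcard (fun x : Ix K => Real.exp (y x.1)) hYx act hc₀
    (hR y) hinj (Hr F b m) (fun z w M r h => Hr_add (hact r z) h) hm₁ hB
    (X := √B) hsB (K := 3 ^ (q + 2 * d) * PY) (by positivity)
    {z : Ix K → ℤ | ∀ i, ∃ k, z ⟨i, k⟩ ≠ 0} (p := q + 2 * d) (by omega)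
    (fun A hA => by
      have := zA (fun i => finrank ℚ (K i)) (fun i => Real.exp (y i)) hY A hA
      rw [hcard, ← hPY] at this
      exact this) SA' (by rw [hSA']; exact fun M hM => hM)
  -- case B
  obtain ⟨SB, hSB⟩ : ∃ SB : s → Set (Set (Al K)), SB = fun j => {M | ∃ z w : Ix K → ℤ,
      Hr F b m z w M ∧
      z ∈ {z : Ix K → ℤ | (∀ k, z ⟨j, k⟩ = 0) ∧ ∀ i, i ≠ j → ∃ k, z ⟨i, k⟩ ≠ 0} ∧
      0 < Nw (fun x : Ix K => Real.exp (y x.1)) z ∧
      Nw (fun x : Ix K => Real.exp (y x.1)) z * Nw (fun x : Ix K => Real.exp (y x.1)) w ≤ B ∧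
      Nw (fun x : Ix K => Real.exp (y x.1)) z ^ 2 ≤ B ∧
      Nw (fun x : Ix K => Real.exp (y x.1)) z ≤ B * Real.exp (y j) ∧
      ∀ x : Ix K, Nw (fun x : Ix K => Real.exp (y x.1)) z ≤ B * Real.exp (y x.1)} := ⟨_, rfl⟩
  have cB : ∀ j, finrank F (K j) = 1 → (SB j).Finite ∧ ((SB j).ncard : ℝ) ≤
      CB * tt (K := K) y := by
    intro j hj
    have hjd : finrank ℚ (K j) = d := by rw [h4.2.2 j, hj, mul_one, hd]
    have hYj := hY j
    have := count2 (q := q) (d := d) hcard (fun x : Ix K => Real.exp (y x.1)) hYx act hc₀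
      (hR y) hinj (Hr F b m) (fun z w M r h => Hr_add (hact r z) h) hm₁ hB
      (X := B * Real.exp (y j)) (by positivity)
      (K := 3 ^ (q + d) * PY / Real.exp (y j) ^ d) (by positivity)
      {z : Ix K → ℤ | (∀ k, z ⟨j, k⟩ = 0) ∧ ∀ i, i ≠ j → ∃ k, z ⟨i, k⟩ ≠ 0} (p := q + d)
      (by omega)
      (fun A hA => by
        have := zB2 (fun i => finrank ℚ (K i)) (fun i => Real.exp (y i)) hY j
          (m := q + d) (by rw [hcard, hjd]; ring) A hA
        have e9 : Real.exp (y j) ^ finrank ℚ (K j) = Real.exp (y j) ^ d := by rw [hjd]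
        rw [← hPY, e9] at this
        exact this) (SB j) (by rw [hSB]; exact fun M hM => hM)
    rw [← hPY, ← hC₀, Nat.add_sub_cancel_left] at this
    refine ⟨this.1, this.2.trans (le_of_eq ?_)⟩
    rw [hCB, ← hPY2, mul_pow]
    field_simp
  obtain ⟨G, hG⟩ : ∃ G : Finset s, G = univ.filter (fun j => finrank F (K j) = 1) := ⟨_, rfl⟩
  obtain ⟨u1, u2⟩ := biUnion_bound SB (c := CB * tt (K := K) y) G
    (fun j hj => cB j (by rw [hG, Finset.mem_filter] at hj; exact hj.2))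
  have hsub : SYF F κ i₀ (cf I) y ⊆ SA' ∪ ⋃ j ∈ G, SB j := by
    intro M hM
    obtain ⟨z, w, hH, hz0, hzw, hz2, hcase⟩ := hst y M hM
    rcases hcase with h | ⟨j, hj1, hjz, hjw, hjall⟩
    · left
      rw [hSA']
      refine ⟨z, w, hH, h, hz0, hzw, hz2, Real.le_sqrt_of_sq_le hz2,
        fun x => hYB hzw hz2 hz0 x.1 (Or.inl (h x.1))⟩
    · right
      refine Set.mem_iUnion₂.2 ⟨j, by rw [hG]; simp [hj1], ?_⟩
      rw [hSB]
      have hall : ∀ i, Nw (fun x : Ix K => Real.exp (y x.1)) z ≤ B * Real.exp (y i) := by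
        intro i
        by_cases hij : i = j
        · subst hij
          exact hYB hzw hz2 hz0 i (Or.inr hjw)
        · exact hYB hzw hz2 hz0 i (Or.inl (hjall i hij))
      exact ⟨z, w, hH, ⟨hjz, hjall⟩, hz0, hzw, hz2, hall j, fun x => hall x.1⟩
  have hfinU := cA.1.union u1
  refine ⟨hfinU.subset hsub, ?_⟩
  have htt : 0 < tt (K := K) y := by rw [← hPY2]; positivity
  have v1 : ((SYF F κ i₀ (cf I) y).ncard : ℝ) ≤ ((SA'.ncard : ℕ) : ℝ) +
      ((⋃ j ∈ G, SB j).ncard : ℝ) := by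
    have e1 := Set.ncard_le_ncard hsub hfinU
    have e2 := Set.ncard_union_le SA' (⋃ j ∈ G, SB j)
    exact_mod_cast e1.trans e2
  have v2 : ((SA'.ncard : ℕ) : ℝ) ≤ CA * tt (K := K) y := by
    have e1 := cA.2
    rw [← hPY, ← hC₀, Nat.add_sub_cancel_left] at e1
    refine e1.trans (le_of_eq ?_)
    rw [hCA, ← hPY2]
    ring
  have v3 : ((G.card : ℕ) : ℝ) * (CB * tt (K := K) y) ≤
      (Fintype.card s : ℝ) * (CB * tt (K := K) y) := by
    have e1 : ((G.card : ℕ) : ℝ) ≤ (Fintype.card s : ℝ) := by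
      exact_mod_cast Finset.card_le_univ G
    gcongr
  calc ((SYF F κ i₀ (cf I) y).ncard : ℝ) ≤ CA * tt (K := K) y +
        (Fintype.card s : ℝ) * (CB * tt (K := K) y) := by linarith
    _ ≤ (CA + Fintype.card s * CB + 1) * tt (K := K) y := by
      rw [add_mul, add_mul, one_mul, mul_assoc]
      linarith

end

end Pool.Agent.Y146.KG
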